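import Pool.Agent.Helper236.Ex5

namespace Pool.Agent.Results.MP_dabcc5_co.Main

open Pool.Agent.Helper236

/-- The critical exponent `c(M; q)`, as the least positive integer `j` with `p(M; q ^ j) > 0`
(and `∞` if there is none). -/
noncomputable def critExpPos {α : Type} (M : Matroid α) (q : ℕ) : ℕ∞ :=
  ⨅ j ∈ {j : ℕ | 0 < j ∧ 0 < (charPoly M).eval ((q : ℤ) ^ j)}, (j : ℕ∞)

/-- `M` is a tangential `k`-block over the finite field `F`: it is finite, simple and representable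
over `F`, its critical exponent is larger than `k`, and every loopless proper minor of `M` has
critical exponent at most `k`. -/
def IsTangentialBlock (F : Type) [Field F] (k : ℕ) {α : Type} (M : Matroid α) : Prop :=
  M.Finite ∧ IsSimple M ∧ Representable F M ∧ (k : ℕ∞) < critExpPos M (Nat.card F) ∧
    ∀ N : Matroid α, N.IsMinor M → N ≠ M → (∀ e ∈ N.E, N.IsNonloop e) →
      critExpPos N (Nat.card F) ≤ k

/-- `M` is supersolvable: there is a chain of modular flats `G 0 ⊆ G 1 ⊆ ... ⊆ G r` with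
`r (G i) = i`, where `r` is the rank of `M`. -/
def IsSupersolvable {α : Type} (M : Matroid α) : Prop :=
  ∃ G : ℕ → Set α, (∀ i ≤ rk M M.E, IsModularFlat M (G i) ∧ rk M (G i) = i) ∧
    ∀ i < rk M M.E, G i ⊆ G (i + 1)

theorem result : ∃ (F : Type) (_ : Field F) (_ : Finite F) (k : ℕ) (α : Type) (M : Matroid α),
    1 ≤ k ∧ IsTangentialBlock F k M ∧ IsNormal (Nat.card F) k M ∧ ¬ IsSupersolvable M := by
  have hfin := Ex5.Mat_finite
  refine ⟨ZMod 5, inferInstance, inferInstance, 1, Fin 10, Ex5.Mat, le_refl 1,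
    ⟨Ex5.Mat_finite, Ex5.Mat_simple, ⟨3, Ex5.pt, Ex5.Mat_rep⟩, ?_, ?_⟩, ?_, ?_⟩
  · refine lt_of_lt_of_le Ex5.Mat_critExp_gt ?_
    refine le_iInf₂ fun j hj => ?_
    exact iInf₂_le j hj.2
  · intro N hN hne hl
    have h1 := Ex5.Mat_minor hN hne hl
    obtain ⟨C, D, hC, -, -, rfl⟩ := hN.exists_eq_contract_delete_disjoint
    have hrep := Ex5.Mat_rep.minor C D hC
    have h2 := (critExp_le_iff hrep 1).1 h1
    have h3 := (eval_pos_iff hrep 1).2 h2
    exact iInf₂_le (1 : ℕ) ⟨one_pos, h3⟩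
  · rw [Nat.card_zmod]
    exact Ex5.Mat_normal
  · rintro ⟨G, hG, -⟩
    have hpos : 1 ≤ rk Ex5.Mat Ex5.Mat.E := by
      by_contra hlt
      have h0 : rk Ex5.Mat Ex5.Mat.E = 0 := by omega
      rw [Ex5.Mat_rep.rk_eq Set.Subset.rfl] at h0
      have h1 := Submodule.finrank_eq_zero.1 h0
      have h2 : Ex5.pt 0 ∈ Submodule.span (ZMod 5) (Ex5.pt '' Ex5.Mat.E) :=
        Submodule.subset_span (Set.mem_image_of_mem _ (Set.mem_univ _))
      rw [h1, Submodule.mem_bot] at h2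
      exact Ex5.pt_ne_zero 0 h2
    obtain ⟨h1, h2⟩ := hG (rk Ex5.Mat Ex5.Mat.E - 1) (by omega)
    exact Ex5.Mat_not_modular ⟨_, h1, by omega⟩

end Pool.Agent.Results.MP_dabcc5_co.Main
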